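import Pool.Agent.PHI.Good
import Pool.Agent.PHI.FreeNice

/-!
# Finite-index Frattini subgroups are nilpotent for iterated extensions of free and surface groups
-/

namespace Pool.Agent.Results.MP_5273fc_al.LowGenus

open Pool.Agent.PHI

universe u

/-- If `Γ` has a central subgroup `Z` such that `Γ / Z` belongs to the class `Tower`, then `Φ_f(G)` is nilpotent for every
subgroup `G` of `Γ`. -/
theorem result {Γ : Type u} [Group Γ] (Z : Subgroup Γ) [Z.Normal]
    (hZ : Z ≤ Subgroup.center Γ) (h : Tower (Γ ⧸ Z)) (G : Subgroup Γ) :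
    Group.IsNilpotent (PhiF G) :=
  mainTower Z hZ h G

end Pool.Agent.Results.MP_5273fc_al.LowGenus
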