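import Pool.Agent.PHI.Cut
import Pool.Agent.PHI.FreeNice

/-!
# Finite-index Frattini subgroups of groups that meet a normal free or surface group in a non-commutative subgroup
-/

namespace Pool.Agent.Results.MP_5273fc_al.PointPushing

open Pool.Agent.PHI

universe u

/-- Let `P` be a nice normal subgroup of `Γ` and `G` a subgroup of `Γ` such that `G ∩ P` is not commutative.  Then
`Φ_f(G) ∩ P = 1` and `Φ_f(G)` centralises `G ∩ P`; in particular, if only the identity of `Γ` centralises `G ∩ P`, then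
`Φ_f(G) = 1`. -/
theorem result {Γ : Type u} [Group Γ] (P : Subgroup Γ) [P.Normal] (hP : Nice P)
    (G : Subgroup Γ) (hQ : ∃ x ∈ G ⊓ P, ∃ y ∈ G ⊓ P, x * y ≠ y * x) :
    (∀ n ∈ PhiF G, (n : Γ) ∈ P → n = 1) ∧
    (∀ n ∈ PhiF G, ∀ x ∈ G ⊓ P, (n : Γ) * x = x * n) ∧
    ((∀ g : Γ, (∀ x ∈ G ⊓ P, g * x = x * g) → g = 1) → PhiF G = ⊥) := by
  obtain ⟨h1, h2⟩ := cut_phiF P hP G hQ
  refine ⟨h1, h2, fun hc => ?_⟩
  rw [eq_bot_iff]
  intro n hn
  rw [Subgroup.mem_bot]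
  exact Subtype.ext (hc n (h2 n hn))

end Pool.Agent.Results.MP_5273fc_al.PointPushing
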