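import Pool.Agent.PHI.MainE
import Pool.Agent.PHI.FreeNice

/-!
# Finite-index Frattini subgroups in iterated extensions by free and surface groups
-/

namespace Pool.Agent.Results.MP_5273fc_al.PunctureReduction

open Pool.Agent.PHI

/-- Let `1 = N 0 ≤ N 1 ≤ ... ≤ N k` be normal subgroups of `Γ` such that every factor `N (i+1) / N i` is nice or central in
`Γ / N i`.  For every subgroup `G` of `Γ`: if `Φ_f` of the image of `G` in `Γ / N k` is nilpotent, then `Φ_f(G)` is nilpotent.
(For example free groups of finite rank at least two are nice: `Pool.Agent.PHI.nice_freeGroup`.) -/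
theorem result {Γ : Type*} [Group Γ] (N : ℕ → Subgroup Γ) [∀ i, (N i).Normal] (h0 : N 0 = ⊥)
    (hmono : Monotone N) (k : ℕ)
    (hstep : ∀ i < k, Nice ((N (i + 1)).map (QuotientGroup.mk' (N i))) ∨
      (N (i + 1)).map (QuotientGroup.mk' (N i)) ≤ Subgroup.center (Γ ⧸ N i))
    (G : Subgroup Γ) (hG : Group.IsNilpotent (PhiF (G.map (QuotientGroup.mk' (N k))))) :
    Group.IsNilpotent (PhiF G) :=
  mainE N h0 hmono k hstep G hG

end Pool.Agent.Results.MP_5273fc_al.PunctureReduction
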