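import Pool.Agent.PHI.Main

/-!
# Finite-index Frattini subgroups act quasi-unipotently on the homology of finite covers
-/

namespace Pool.Agent.Results.MP_5273fc_al.VirtualHomology

open Pool.Agent.PHI

/-- Let `π` be a finitely generated group and `θ : G → Out π` a homomorphism from an arbitrary group `G`.  If `x` lies in the
commutator subgroup of `Φ_f(G)`, `φ` is an automorphism of `π` representing `θ x` and `K` is a finite index subgroup of `π`
with `φ(K) ⊆ K`, then all eigenvalues of `φ` on `H_1(K; ℂ)` are roots of unity. -/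
theorem result {π G : Type*} [Group π] [Group.FG π] [Group G] (θ : G →* Out π)
    (x : G) (hx : x ∈ ⁅PhiF G, PhiF G⁆) (φ : MulAut π) (hφ : (φ : Out π) = θ x)
    (K : Subgroup π) [K.FiniteIndex] (hK : ∀ y ∈ K, φ y ∈ K) (μ : ℂ)
    (hμ : Module.End.HasEigenvalue (H1 φ K hK) μ) : ∃ m : ℕ, 0 < m ∧ μ ^ m = 1 :=
  main θ x hx φ hφ K hK μ hμ

end Pool.Agent.Results.MP_5273fc_al.VirtualHomology
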